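import Pool.Agent.H2.T1.Glo
import Pool.Agent.H14.T1.S3
import Pool.Agent.H14.T1.Tau

/-!
# T1: RCL, reciprocity over `F(t)`
-/

set_option autoImplicit false

namespace Pool.T1.Rcl

open Polynomial Matrix Pool.AVR Pool.HYP Pool.AVS Pool.AVS.GLU Pool.T1.Glo

/-! ### Matrices over a subring, any index type -/

section Sub

variable {L : Type} [Field L] {ι : Type} [Fintype ι] [DecidableEq ι] (R : Subring L)

omit [Fintype ι] [DecidableEq ι] in
theorem lift' (A : Matrix ι ι L) (h : ∀ i j, A i j ∈ R) :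
    ∃ A' : Matrix ι ι R, A = A'.map R.subtype :=
  ⟨Matrix.of fun i j => ⟨A i j, h i j⟩, by ext i j; rfl⟩

theorem det' {A : Matrix ι ι L} (h : ∀ i j, A i j ∈ R) : A.det ∈ R := by
  obtain ⟨A', rfl⟩ := lift' R A h
  have : (A'.map R.subtype).det = R.subtype A'.det := (RingHom.map_det R.subtype A').symm
  rw [this]
  exact A'.det.2

theorem adj' {A : Matrix ι ι L} (h : ∀ i j, A i j ∈ R) (i j : ι) :
    A.adjugate i j ∈ R := by
  obtain ⟨A', rfl⟩ := lift' R A h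
  have : (A'.map R.subtype).adjugate = A'.adjugate.map R.subtype :=
    (RingHom.map_adjugate R.subtype A').symm
  rw [this]
  exact (A'.adjugate i j).2

omit [DecidableEq ι] in
theorem mul' {A B : Matrix ι ι L} (hA : ∀ i j, A i j ∈ R)
    (hB : ∀ i j, B i j ∈ R) (i j : ι) : (A * B) i j ∈ R := by
  rw [mul_apply]
  exact sum_mem fun k _ => mul_mem (hA i k) (hB k j)

theorem gmul {A B : Matrix ι ι L} (hA : GInI (R : Set L) A)
    (hB : GInI (R : Set L) B) : GInI (R : Set L) (A * B) := by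
  refine ⟨mul' R hA.1 hB.1, ?_, ?_, ?_⟩
  · rw [det_mul]
    exact mul_ne_zero hA.2.1 hB.2.1
  · rw [det_mul]
    exact R.mul_mem hA.2.2.1 hB.2.2.1
  · rw [det_mul, mul_inv]
    exact R.mul_mem hA.2.2.2 hB.2.2.2

theorem ginv {A : Matrix ι ι L} (hA : GInI (R : Set L) A) :
    GInI (R : Set L) A⁻¹ := by
  refine ⟨fun i j => ?_, ?_⟩
  · rw [Matrix.inv_def, Ring.inverse_eq_inv', Matrix.smul_apply, smul_eq_mul]
    exact R.mul_mem hA.2.2.2 (adj' R hA.1 i j)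
  · rw [det_nonsing_inv, Ring.inverse_eq_inv']
    refine ⟨inv_ne_zero hA.2.1, hA.2.2.2, ?_⟩
    rw [inv_inv]
    exact hA.2.2.1

theorem gtr {A : Matrix ι ι L} (hA : GInI (R : Set L) A) : GInI (R : Set L) Aᵀ :=
  ⟨fun i j => hA.1 j i, by rw [det_transpose]; exact hA.2⟩

theorem gone : GInI (R : Set L) (1 : Matrix ι ι L) := by
  refine ⟨fun i j => ?_, ?_, ?_, ?_⟩
  · rw [Matrix.one_apply]
    split_ifs
    · exact R.one_mem
    · exact R.zero_mem
  · rw [det_one]; exact one_ne_zero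
  · rw [det_one]; exact R.one_mem
  · rw [det_one, inv_one]; exact R.one_mem

omit [DecidableEq ι] in
theorem dot_mem {x y : ι → L} (hx : ∀ i, x i ∈ R) (hy : ∀ i, y i ∈ R) : x ⬝ᵥ y ∈ R :=
  sum_mem fun i _ => mul_mem (hx i) (hy i)

omit [DecidableEq ι] in
theorem mv_mem {A : Matrix ι ι L} {x : ι → L} (hA : ∀ i j, A i j ∈ R) (hx : ∀ i, x i ∈ R)
    (i : ι) : (A *ᵥ x) i ∈ R :=
  sum_mem fun j _ => mul_mem (hA i j) (hx j)

end Sub

variable {F : Type} [Field F] {ι : Type} [Fintype ι] [DecidableEq ι]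

/-- a polynomial matrix over the field of fractions -/
noncomputable def mI (G : Matrix ι ι F[X]) : Matrix ι ι (RatFunc F) :=
  (algebraMap F[X] (RatFunc F)).mapMatrix G

theorem mI_apply (G : Matrix ι ι F[X]) (i j : ι) : mI G i j = rf (G i j) := rfl

theorem mI_det (G : Matrix ι ι F[X]) : (mI G).det = rf G.det :=
  (RingHom.map_det (algebraMap F[X] (RatFunc F)) G).symm

theorem mI_adj (G : Matrix ι ι F[X]) : (mI G).adjugate = mI G.adjugate :=
  (RingHom.map_adjugate (algebraMap F[X] (RatFunc F)) G).symm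

theorem mI_tr (G : Matrix ι ι F[X]) (h : Gᵀ = G) : (mI G)ᵀ = mI G := by
  ext i j
  rw [transpose_apply, mI_apply, mI_apply]
  exact congrArg rf (congrFun (congrFun h i) j)

theorem rf_mv (G : Matrix ι ι F[X]) (x : ι → F[X]) :
    (mI G *ᵥ fun i => rf (x i)) = fun i => rf ((G *ᵥ x) i) := by
  funext i
  simp only [mulVec, dotProduct, map_sum, map_mul, mI_apply]

omit [DecidableEq ι] in
theorem rf_dot (x y : ι → F[X]) :
    ((fun i => rf (x i)) ⬝ᵥ fun i => rf (y i)) = rf (x ⬝ᵥ y) := by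
  simp only [dotProduct, map_sum, map_mul]

theorem rf_inj {a b : F[X]} (h : rf a = rf b) : a = b :=
  RatFunc.algebraMap_injective F h

/-! ### Residues -/

theorem tau_frac {M M' : F[X]} (hM : M.Monic) (hM' : M'.Monic) (a a' c : F[X])
    (h : rf a / rf M = rf a' / rf M' + rf c) : Pool.HYP.tau M a = Pool.HYP.tau M' a' := by
  have h0 : rf M ≠ 0 := RatFunc.algebraMap_ne_zero hM.ne_zero
  have h0' : rf M' ≠ 0 := RatFunc.algebraMap_ne_zero hM'.ne_zero
  have h1 : a * M' = a' * M + c * M * M' := by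
    apply rf_inj
    rw [rf, rf, map_mul, map_add, map_mul, map_mul, map_mul]
    field_simp at h
    linear_combination h
  rcases Nat.eq_zero_or_pos M.natDegree with hd | hd
  · have hM1 : M = 1 := eq_one_of_monic_natDegree_zero hM hd
    subst hM1
    rw [tau_dvd hM (one_dvd _), tau_dvd hM']
    refine ⟨a - c, ?_⟩
    linear_combination -h1
  rcases Nat.eq_zero_or_pos M'.natDegree with hd' | hd'
  · have hM1 : M' = 1 := eq_one_of_monic_natDegree_zero hM' hd'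
    subst hM1
    rw [tau_dvd hM' (one_dvd _), tau_dvd hM]
    refine ⟨a' + c, ?_⟩
    linear_combination h1
  rw [← tau_mul_right hM hM' hd, ← tau_mul_right hM' hM hd', mul_comm M' M]
  refine tau_congr (hM.mul hM') ⟨c, ?_⟩
  linear_combination h1

theorem rsd_congr {P : F[X]} {ρ : RatFunc F → F} (h : Rsd P ρ)
    {x y : RatFunc F} (hxy : x - y ∈ IP P) : ρ x = ρ y := by
  have h1 := h.add (x - y) y
  rw [h.zero _ hxy, sub_add_cancel, zero_add] at h1
  exact h1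

theorem res_eq {P : F[X]} (hPm : P.Monic) (hP : Irreducible P) {ρ : RatFunc F → F}
    (h : Rsd P ρ) {M : F[X]} (hM : M.Monic) (b : F[X])
    (hz : ∀ Q : F[X], Q.Monic → Irreducible Q → Q ≠ P → rf b / rf M ∈ IP Q) :
    ρ (rf b / rf M) = Pool.HYP.tau M b := by
  obtain ⟨a, j, h1⟩ := pf hP (rf b / rf M)
  obtain ⟨c, hc⟩ := pol_of_all (rf b / rf M - rf a / rf P ^ j) (by
    intro Q hQm hQ
    by_cases hne : Q = P
    · rw [hne]; exact h1
    · exact (OO hQ).sub_mem (hz Q hQm hQ hne) (pf_mem hPm hP hQm hQ hne a j))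
  have h2 : ρ (rf b / rf M) = ρ (rf a / rf P ^ j) := by
    apply rsd_congr h
    exact h1
  rw [h2, h.pole]
  refine (tau_frac hM (hPm.pow j) b a c ?_).symm
  rw [show rf (P ^ j) = rf P ^ j from map_pow _ _ _, show rf c = _ from hc.symm]
  ring

theorem res_zero {M : F[X]} (hM : M.Monic) (b : F[X])
    (hz : ∀ Q : F[X], Q.Monic → Irreducible Q → rf b / rf M ∈ IP Q) :
    Pool.HYP.tau M b = 0 := by
  obtain ⟨c, hc⟩ := pol_of_all _ hz
  have h0 : rf M ≠ 0 := RatFunc.algebraMap_ne_zero hM.ne_zero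
  refine tau_dvd hM ⟨c, rf_inj ?_⟩
  rw [div_eq_iff h0] at hc
  rw [hc, rf, rf, map_mul]
  ring

/-- the linking form as a rational function -/
theorem lkf (G : Matrix ι ι F[X]) (hG : G.det ≠ 0) (x u : ι → F[X]) (w : ι → RatFunc F)
    (hw : mI G *ᵥ w = fun i => rf (u i)) :
    rf (C G.det.leadingCoeff⁻¹ * (x ⬝ᵥ (G.adjugate *ᵥ u))) / rf (C G.det.leadingCoeff⁻¹ * G.det) =
      (fun i => rf (x i)) ⬝ᵥ w := by
  have hlc : G.det.leadingCoeff ≠ 0 := leadingCoeff_ne_zero.2 hG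
  have h1 : rf (C G.det.leadingCoeff⁻¹) ≠ 0 :=
    RatFunc.algebraMap_ne_zero (C_ne_zero.2 (inv_ne_zero hlc))
  have h2 : rf G.det ≠ 0 := RatFunc.algebraMap_ne_zero hG
  have h3 : (fun i => rf ((G.adjugate *ᵥ u) i)) = rf G.det • w := by
    rw [← rf_mv, ← mI_adj, ← hw, mulVec_mulVec, adjugate_mul, mI_det, smul_mulVec, one_mulVec]
  have h4 : rf (x ⬝ᵥ (G.adjugate *ᵥ u)) = rf G.det * ((fun i => rf (x i)) ⬝ᵥ w) := by
    rw [← rf_dot, h3, dotProduct_smul, smul_eq_mul]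
  rw [rf, rf, map_mul, map_mul]
  rw [show algebraMap F[X] (RatFunc F) (x ⬝ᵥ (G.adjugate *ᵥ u)) = _ from h4]
  rw [mul_div_mul_left _ _ h1, mul_div_cancel_left₀ _ h2]

theorem monic_lc {p : F[X]} (hp : p ≠ 0) : (C p.leadingCoeff⁻¹ * p).Monic := by
  rw [mul_comm]
  exact monic_mul_leadingCoeff_inv hp

theorem lk_res (G : Matrix ι ι F[X]) (hG : G.det ≠ 0) {P : F[X]} (hPm : P.Monic)
    (hP : Irreducible P) {ρ : RatFunc F → F} (hρ : Rsd P ρ) (x u : ι → F[X])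
    (w : ι → RatFunc F) (hw : mI G *ᵥ w = fun i => rf (u i))
    (hz : ∀ Q : F[X], Q.Monic → Irreducible Q → Q ≠ P → (fun i => rf (x i)) ⬝ᵥ w ∈ IP Q) :
    lk G x u = ρ ((fun i => rf (x i)) ⬝ᵥ w) := by
  have h1 := lkf G hG x u w hw
  rw [lk, ← h1]
  refine (res_eq hPm hP hρ (monic_lc hG) _ ?_).symm
  rw [h1]
  exact hz

theorem lk_zero (G : Matrix ι ι F[X]) (hG : G.det ≠ 0) (x u : ι → F[X])
    (w : ι → RatFunc F) (hw : mI G *ᵥ w = fun i => rf (u i))
    (hz : ∀ Q : F[X], Q.Monic → Irreducible Q → (fun i => rf (x i)) ⬝ᵥ w ∈ IP Q) :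
    lk G x u = 0 := by
  have h1 := lkf G hG x u w hw
  rw [lk]
  refine res_zero (monic_lc hG) _ ?_
  rw [h1]
  exact hz

/-! ### Local data -/

/-- The local data in an adapted basis. -/
def LocU (P : F[X]) (G : Matrix ι ι (RatFunc F)) (m : ℕ) (δ : F) : Prop :=
  ∃ (ρ : RatFunc F → F) (κ : Type) (_ : Fintype κ) (_ : DecidableEq κ)
    (u : κ → ι → RatFunc F), Rsd P ρ ∧ Fintype.card κ = 2 * m ∧
    (∀ e i, (G *ᵥ u e) i ∈ IP P) ∧
    (∀ x : ι → RatFunc F, (∀ i, (G *ᵥ x) i ∈ IP P) →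
      (∀ e, ρ (x ⬝ᵥ (G *ᵥ u e)) = 0) → ∀ i, x i ∈ IP P) ∧
    δ = (-1) ^ m * (Matrix.of fun e e' => ρ (u e ⬝ᵥ (G *ᵥ u e'))).det

/-- The local data with a given lattice. -/
def LocG (P : F[X]) (G : Matrix ι ι (RatFunc F)) (m : ℕ) (δ : F)
    (g : Matrix ι ι (RatFunc F)) : Prop :=
  ∃ (ρ : RatFunc F → F) (κ : Type) (_ : Fintype κ)
    (_ : DecidableEq κ) (u : κ → ι → RatFunc F),
    Rsd P ρ ∧ g.det ≠ 0 ∧ Fintype.card κ = 2 * m ∧ MInI (IP P) (gᵀ * G * g) ∧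
    (∀ e i, (gᵀ *ᵥ (G *ᵥ u e)) i ∈ IP P) ∧
    (∀ x : ι → RatFunc F, (∀ i, (gᵀ *ᵥ (G *ᵥ x)) i ∈ IP P) →
      (∀ e, ρ (x ⬝ᵥ (G *ᵥ u e)) = 0) → ∀ i, (g⁻¹ *ᵥ x) i ∈ IP P) ∧
    δ = (-1) ^ m * (Matrix.of fun e e' => ρ (u e ⬝ᵥ (G *ᵥ u e'))).det

theorem locG {P : F[X]} {G : Matrix ι ι (RatFunc F)} {m : ℕ} {δ : F} (h : LocD P G m δ) :
    ∃ g, LocG P G m δ g := by
  obtain ⟨ρ, g, κ, i1, i2, u, h1⟩ := h
  exact ⟨g, ρ, κ, i1, i2, u, h1⟩

/-- change of the basis -/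
theorem locU {P : F[X]} (hP : Irreducible P) {G : Matrix ι ι (RatFunc F)} {m : ℕ} {δ : F}
    {g c h : Matrix ι ι (RatFunc F)} (hg : LocG P G m δ g) (hc : GInI (IP P) c)
    (hh : h = g * c) : LocU P (hᵀ * G * h) m δ := by
  obtain ⟨ρ, κ, i1, i2, u, h1, h2, h3, -, h5, h6, h7⟩ := hg
  have hc' : GInI (OO hP : Set (RatFunc F)) c := hc
  have hci : GInI (OO hP : Set (RatFunc F)) c⁻¹ := ginv (OO hP) hc'
  have hct : GInI (OO hP : Set (RatFunc F)) cᵀ := gtr (OO hP) hc'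
  have hcti : GInI (OO hP : Set (RatFunc F)) (cᵀ)⁻¹ := ginv (OO hP) hct
  have hcu : IsUnit c.det := isUnit_iff_ne_zero.2 hc.2.1
  have hctu : IsUnit (cᵀ).det := by rw [det_transpose]; exact hcu
  have hhu : IsUnit h.det := by
    rw [hh, det_mul]
    exact isUnit_iff_ne_zero.2 (mul_ne_zero h2 hc.2.1)
  have hgu : IsUnit g.det := isUnit_iff_ne_zero.2 h2
  have ht : hᵀ = cᵀ * gᵀ := by rw [hh, transpose_mul]
  have k1 : ∀ x : ι → RatFunc F, (hᵀ * G * h) *ᵥ x = cᵀ *ᵥ (gᵀ *ᵥ (G *ᵥ (h *ᵥ x))) := by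
    intro x
    rw [ht]
    simp only [← mulVec_mulVec, Matrix.mul_assoc]
  have k2 : ∀ x y : ι → RatFunc F, x ⬝ᵥ ((hᵀ * G * h) *ᵥ y) = (h *ᵥ x) ⬝ᵥ (G *ᵥ (h *ᵥ y)) := by
    intro x y
    simp only [← mulVec_mulVec, Matrix.mul_assoc]
    rw [dotProduct_mulVec, vecMul_transpose]
  have k3 : ∀ e, h *ᵥ (h⁻¹ *ᵥ u e) = u e := fun e => by
    rw [mulVec_mulVec, mul_nonsing_inv _ hhu, one_mulVec]
  refine ⟨ρ, κ, i1, i2, fun e => h⁻¹ *ᵥ u e, h1, h3, ?_, ?_, ?_⟩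
  · intro e i
    rw [k1, k3]
    exact mv_mem (OO hP) hct.1 (h5 e) i
  · intro x hx hx2 i
    have hx' : ∀ i, (gᵀ *ᵥ (G *ᵥ (h *ᵥ x))) i ∈ IP P := by
      intro i
      have h8 : gᵀ *ᵥ (G *ᵥ (h *ᵥ x)) = (cᵀ)⁻¹ *ᵥ ((hᵀ * G * h) *ᵥ x) := by
        rw [k1, mulVec_mulVec _ (cᵀ)⁻¹, nonsing_inv_mul _ hctu, one_mulVec]
      rw [h8]
      exact mv_mem (OO hP) hcti.1 hx i
    have h9 := h6 (h *ᵥ x) hx' (by
      intro e
      have h10 := hx2 e
      rw [k2, k3] at h10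
      exact h10)
    have h11 : x = c⁻¹ *ᵥ (g⁻¹ *ᵥ (h *ᵥ x)) := by
      rw [hh, mulVec_mulVec _ g⁻¹, ← Matrix.mul_assoc, nonsing_inv_mul _ hgu, Matrix.one_mul,
        mulVec_mulVec, nonsing_inv_mul _ hcu, one_mulVec]
    rw [h11]
    exact mv_mem (OO hP) hci.1 h9 i
  · rw [h7]
    simp only [k2, k3]

/-- from local vectors to global ones -/
theorem glob (G : Matrix ι ι F[X]) (hGt : Gᵀ = G) {P : F[X]} (hPm : P.Monic)
    (hP : Irreducible P) {m : ℕ} {δ : F} (h : LocU P (mI G) m δ) :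
    ∃ (ρ : RatFunc F → F) (κ : Type) (_ : Fintype κ) (_ : DecidableEq κ)
    (w : κ → ι → RatFunc F) (u : κ → ι → F[X]), Rsd P ρ ∧ Fintype.card κ = 2 * m ∧
    (∀ e, mI G *ᵥ w e = fun i => rf (u e i)) ∧
    (∀ e i, ∀ Q : F[X], Q.Monic → Irreducible Q → Q ≠ P → w e i ∈ IP Q) ∧
    (∀ x : ι → RatFunc F, (∀ i, (mI G *ᵥ x) i ∈ IP P) →
      (∀ e, ρ (x ⬝ᵥ (mI G *ᵥ w e)) = 0) → ∀ i, x i ∈ IP P) ∧
    δ = (-1) ^ m * (Matrix.of fun e e' => ρ (w e ⬝ᵥ (mI G *ᵥ w e'))).det := by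
  obtain ⟨ρ, κ, i1, i2, u₀, h1, h2, h3, h4, h5⟩ := h
  choose a j haj using fun (e : κ) (i : ι) => pf hP (u₀ e i)
  have hGI : ∀ Q : F[X], Irreducible Q → ∀ i j, mI G i j ∈ IP Q := fun Q hQ i j => pol_mem hQ _
  obtain ⟨w, hw⟩ : ∃ w : κ → ι → RatFunc F, w = fun e i => rf (a e i) / rf P ^ j e i := ⟨_, rfl⟩
  have hwQ : ∀ e i, ∀ Q : F[X], Q.Monic → Irreducible Q → Q ≠ P → w e i ∈ IP Q := by
    intro e i Q hQm hQ hne
    rw [hw]
    exact pf_mem hPm hP hQm hQ hne _ _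
  obtain ⟨d, hd⟩ : ∃ d : κ → ι → RatFunc F, d = fun e i => u₀ e i - w e i := ⟨_, rfl⟩
  have hdm : ∀ e i, d e i ∈ OO hP := by
    intro e i
    rw [hd, hw]
    exact haj e i
  have hwd : ∀ e, w e = u₀ e - d e := by
    intro e
    funext i
    rw [hd, Pi.sub_apply]
    ring
  have hGw : ∀ e, ∀ Q : F[X], Q.Monic → Irreducible Q → ∀ i, (mI G *ᵥ w e) i ∈ IP Q := by
    intro e Q hQm hQ i
    by_cases hne : Q = P
    · subst hne
      rw [hwd, mulVec_sub]
      exact (OO hQ).sub_mem (h3 e i) (mv_mem (OO hQ) (hGI Q hQ) (hdm e) i)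
    · exact mv_mem (OO hQ) (hGI Q hQ) (fun i => hwQ e i Q hQm hQ hne) i
  choose u hu using fun (e : κ) (i : ι) => pol_of_all ((mI G *ᵥ w e) i)
    fun Q hQm hQ => hGw e Q hQm hQ i
  have hsym : ∀ x y : ι → RatFunc F, x ⬝ᵥ (mI G *ᵥ y) = (mI G *ᵥ x) ⬝ᵥ y := by
    intro x y
    rw [dotProduct_mulVec, ← mulVec_transpose, mI_tr G hGt]
  have key : ∀ x : ι → RatFunc F, (∀ i, (mI G *ᵥ x) i ∈ IP P) → ∀ e,
      ρ (x ⬝ᵥ (mI G *ᵥ w e)) = ρ (x ⬝ᵥ (mI G *ᵥ u₀ e)) := by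
    intro x hx e
    apply rsd_congr h1
    rw [hwd, mulVec_sub, dotProduct_sub, sub_sub_cancel_left, hsym]
    exact (OO hP).neg_mem (dot_mem (OO hP) hx (hdm e))
  refine ⟨ρ, κ, i1, i2, w, u, h1, h2, fun e => funext fun i => hu e i, hwQ, ?_, ?_⟩
  · intro x hx hx2
    apply h4 x hx
    intro e
    rw [← key x hx]
    exact hx2 e
  · rw [h5]
    congr 2
    ext e e'
    rw [Matrix.of_apply, Matrix.of_apply, key (w e) (fun i => hGw e P hPm hP i) e']
    rw [hsym, dotProduct_comm, hsym (w e), dotProduct_comm (mI G *ᵥ w e)]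
    exact (key _ (h3 e') e).symm

/-- all the primes of `T` -/
theorem ind (G : Matrix ι ι F[X]) (hGt : Gᵀ = G) (hG : G.det ≠ 0) (m : F[X] → ℕ) (δ : F[X] → F)
    (T : Finset F[X]) :
    (∀ P ∈ T, P.Monic ∧ Irreducible P) → (∀ P ∈ T, LocU P (mI G) (m P) (δ P)) →
    ∃ (κ : Type) (_ : Fintype κ) (_ : DecidableEq κ) (w : κ → ι → RatFunc F)
      (u : κ → ι → F[X]),
      (∀ e, mI G *ᵥ w e = fun i => rf (u e i)) ∧
      (∀ e i, ∀ Q : F[X], Q.Monic → Irreducible Q → Q ∉ T → w e i ∈ IP Q) ∧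
      Fintype.card κ = 2 * ∑ P ∈ T, m P ∧
      (∀ x : ι → F[X], (∀ e, lk G x (u e) = 0) → ∀ P ∈ T, ∀ y : ι → RatFunc F,
        (mI G *ᵥ y = fun i => rf (x i)) → ∀ i, y i ∈ IP P) ∧
      ∏ P ∈ T, δ P = (-1) ^ (∑ P ∈ T, m P) *
        (Matrix.of fun e e' => lk G (u e) (u e')).det := by
  classical
  induction T using Finset.induction_on with
  | empty =>
    intro _ _
    refine ⟨Fin 0, inferInstance, inferInstance, fun e => e.elim0, fun e => e.elim0,
      fun e => e.elim0, fun e => e.elim0, ?_, ?_, ?_⟩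
    · rw [Finset.sum_empty, Fintype.card_fin, mul_zero]
    · intro x _ P hP
      exact absurd hP (Finset.notMem_empty P)
    · rw [Finset.sum_empty, Finset.prod_empty, det_isEmpty, pow_zero, mul_one]
  | insert P T hPT ih =>
    intro hT hL
    obtain ⟨κ, i1, i2, w, u, h1, h2, h3, h4, h5⟩ :=
      ih (fun Q hQ => hT Q (Finset.mem_insert_of_mem hQ))
        (fun Q hQ => hL Q (Finset.mem_insert_of_mem hQ))
    obtain ⟨hPm, hP⟩ := hT P (Finset.mem_insert_self P T)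
    obtain ⟨ρ, κ', i1', i2', w', u', k0, k1, k2, k3, k4, k5⟩ :=
      glob G hGt hPm hP (hL P (Finset.mem_insert_self P T))
    have hsym : ∀ x y : ι → RatFunc F, x ⬝ᵥ (mI G *ᵥ y) = (mI G *ᵥ x) ⬝ᵥ y := by
      intro x y
      rw [dotProduct_mulVec, ← mulVec_transpose, mI_tr G hGt]
    have hpol : ∀ (x : ι → F[X]) (Q : F[X]), Irreducible Q → ∀ i, rf (x i) ∈ IP Q :=
      fun x Q hQ i => pol_mem hQ _
    -- the four blocks
    have b12 : ∀ e e', lk G (u e) (u' e') = 0 := by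
      intro e e'
      refine lk_zero G hG _ _ (w' e') (k2 e') ?_
      intro Q hQm hQ
      by_cases hne : Q = P
      · subst hne
        rw [← h1 e, ← hsym, k2 e']
        exact dot_mem (OO hQ) (fun i => h2 e i Q hQm hQ hPT) (hpol _ Q hQ)
      · exact dot_mem (OO hQ) (hpol _ Q hQ) (fun i => k3 e' i Q hQm hQ hne)
    have b21 : ∀ e e', lk G (u' e') (u e) = 0 := by
      intro e e'
      refine lk_zero G hG _ _ (w e) (h1 e) ?_
      intro Q hQm hQ
      by_cases hne : Q = P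
      · subst hne
        exact dot_mem (OO hQ) (hpol _ Q hQ) (fun i => h2 e i Q hQm hQ hPT)
      · rw [← k2 e', ← hsym, h1 e]
        exact dot_mem (OO hQ) (fun i => k3 e' i Q hQm hQ hne) (hpol _ Q hQ)
    have b22 : ∀ x : ι → F[X], ∀ e', lk G x (u' e') = ρ ((fun i => rf (x i)) ⬝ᵥ w' e') := by
      intro x e'
      refine lk_res G hG hPm hP k0 _ _ (w' e') (k2 e') ?_
      intro Q hQm hQ hne
      exact dot_mem (OO hQ) (hpol _ Q hQ) (fun i => k3 e' i Q hQm hQ hne)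
    refine ⟨κ ⊕ κ', inferInstance, inferInstance, Sum.elim w w', Sum.elim u u', ?_, ?_, ?_, ?_,
      ?_⟩
    · rintro (e | e)
      · exact h1 e
      · exact k2 e
    · rintro (e | e) i Q hQm hQ hQT
      · exact h2 e i Q hQm hQ fun h => hQT (Finset.mem_insert_of_mem h)
      · refine k3 e i Q hQm hQ ?_
        rintro rfl
        exact hQT (Finset.mem_insert_self _ _)
    · rw [Fintype.card_sum, h3, k1, Finset.sum_insert hPT]
      ring
    · intro x hx Q hQ y hy i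
      rcases Finset.mem_insert.1 hQ with rfl | hQ
      · refine k4 y ?_ ?_ i
        · intro i
          rw [hy]
          exact hpol _ Q hP i
        · intro e
          rw [hsym, hy, ← b22]
          exact hx (Sum.inr e)
      · exact h4 x (fun e => hx (Sum.inl e)) Q hQ y hy i
    · rw [Finset.prod_insert hPT, Finset.sum_insert hPT, h5, k5]
      have hm : (Matrix.of fun e e' => lk G (Sum.elim u u' e) (Sum.elim u u' e')) =
          Matrix.fromBlocks (Matrix.of fun e e' => lk G (u e) (u e')) 0 0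
            (Matrix.of fun e e' => ρ (w' e ⬝ᵥ (mI G *ᵥ w' e'))) := by
        ext e e'
        rcases e with e | e <;> rcases e' with e' | e'
        · rfl
        · exact b12 e e'
        · exact b21 e' e
        · rw [Matrix.of_apply, Matrix.fromBlocks_apply₂₂, Matrix.of_apply, Sum.elim_inr,
            Sum.elim_inr, b22, ← k2 e, hsym]
      rw [hm, det_fromBlocks_zero₂₁, pow_add]
      ring

/-! ### Gluing for any index type -/

theorem gin_sub {L : Type} [Field L] {n : ℕ} {I : Set L} (e : ι ≃ Fin n)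
    {A : Matrix (Fin n) (Fin n) L} (h : GIn I A) : GInI I (A.submatrix e e) :=
  ⟨fun i j => h.1 _ _, by rw [det_submatrix_equiv_self]; exact h.2⟩

theorem gin_sub' {L : Type} [Field L] {n : ℕ} {I : Set L} (e : ι ≃ Fin n)
    {A : Matrix ι ι L} (h : GInI I A) : GIn I (A.submatrix e.symm e.symm) :=
  ⟨fun i j => h.1 _ _, by rw [det_submatrix_equiv_self]; exact h.2⟩

theorem gloI (gQ : F[X] → Matrix ι ι (RatFunc F))
    (h0 : ∀ P : F[X], P.Monic → Irreducible P → (gQ P).det ≠ 0)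
    (S : Finset F[X]) (hS : ∀ P ∈ S, P.Monic ∧ Irreducible P)
    (hout : ∀ P : F[X], P.Monic → Irreducible P → P ∉ S → GInI (IP P) (gQ P))
    (gi : Matrix ι ι (RatFunc F)) (hgi : gi.det ≠ 0) :
    ∃ (g : Matrix ι ι (RatFunc F)) (d : ι → ℤ), g.det ≠ 0 ∧
      (∀ P : F[X], P.Monic → Irreducible P → ∃ κ, GInI (IP P) κ ∧ g = gQ P * κ) ∧
      ∃ κ, GInI (Iinf F) κ ∧
        g = gi * κ * Matrix.diagonal (fun i => (RatFunc.X : RatFunc F) ^ d i) := by
  obtain ⟨e⟩ : Nonempty (ι ≃ Fin (Fintype.card ι)) := ⟨Fintype.equivFin ι⟩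
  obtain ⟨g, d, h1, h2, κ, h3, h4⟩ := glo (fun P => (gQ P).submatrix e.symm e.symm)
    (fun P hm hi => by rw [det_submatrix_equiv_self]; exact h0 P hm hi) S hS
    (fun P hm hi hn => gin_sub' e (hout P hm hi hn)) (gi.submatrix e.symm e.symm)
    (by rw [det_submatrix_equiv_self]; exact hgi)
  have hb : ∀ A : Matrix ι ι (RatFunc F), (A.submatrix e.symm e.symm).submatrix e e = A := by
    intro A
    ext i j
    rw [submatrix_apply, submatrix_apply, e.symm_apply_apply, e.symm_apply_apply]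
  refine ⟨g.submatrix e e, d ∘ e, ?_, ?_, κ.submatrix e e, gin_sub e h3, ?_⟩
  · rw [det_submatrix_equiv_self]; exact h1
  · intro P hm hi
    obtain ⟨κ', k1, k2⟩ := h2 P hm hi
    refine ⟨κ'.submatrix e e, gin_sub e k1, ?_⟩
    rw [k2, ← submatrix_mul_equiv _ _ e e e, hb]
  · rw [h4, ← submatrix_mul_equiv _ _ e e e, ← submatrix_mul_equiv _ _ e e e, hb]
    congr 1
    ext i j
    rw [submatrix_apply, diagonal_apply, diagonal_apply]
    by_cases hij : i = j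
    · subst hij
      rw [if_pos rfl, if_pos rfl]
      rfl
    · rw [if_neg hij, if_neg (fun h => hij (e.injective h))]

/-- degrees of the Gram matrix -/
theorem degsI (G0 gi κ : Matrix ι ι (RatFunc F)) (G : Matrix ι ι F[X])
    (d : ι → ℤ) (hi : GInI (Iinf F) (giᵀ * G0 * gi)) (hκ : GInI (Iinf F) κ)
    (hG : (gi * κ * Matrix.diagonal (fun i => (RatFunc.X : RatFunc F) ^ d i))ᵀ * G0 *
      (gi * κ * Matrix.diagonal (fun i => (RatFunc.X : RatFunc F) ^ d i)) = mI G) :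
    (∀ i j, DegLe (G i j) (d i + d j)) ∧ G.det ≠ 0 ∧ (G.det.natDegree : ℤ) = 2 * ∑ i, d i := by
  have hκt : GInI (OInf F : Set (RatFunc F)) κᵀ :=
    ⟨fun i j => hκ.1 j i, by rw [det_transpose]; exact hκ.2⟩
  have hU : GInI ((OInf F) : Set (RatFunc F)) (κᵀ * (giᵀ * G0 * gi) * κ) :=
    gmul (OInf F) (gmul (OInf F) hκt hi) hκ
  set U := κᵀ * (giᵀ * G0 * gi) * κ with hUdef
  set D := Matrix.diagonal (fun i => (RatFunc.X : RatFunc F) ^ d i) with hD
  have e : D * U * D = mI G := by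
    have hDt : Dᵀ = D := by rw [hD, Matrix.diagonal_transpose]
    rw [← hG, hUdef, Matrix.transpose_mul, Matrix.transpose_mul, hDt]
    simp only [Matrix.mul_assoc]
  refine ⟨fun i j => ?_, ?_⟩
  · refine deg_of_mem (G i j) (d i + d j) (U i j) (hU.1 i j) ?_
    have h1 : (mI G) i j = algebraMap F[X] (RatFunc F) (G i j) := rfl
    rw [← h1, ← e, hD, Matrix.mul_diagonal, Matrix.diagonal_mul,
      zpow_add₀ RatFunc.X_ne_zero]
    ring
  · refine deg_of_unit G.det (2 * ∑ i, d i) U.det hU.2 ?_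
    rw [show algebraMap F[X] (RatFunc F) G.det = _ from (mI_det G).symm, ← e, det_mul, det_mul,
      hD, det_diagonal, HNF.prod_zpow' RatFunc.X_ne_zero, two_mul,
      zpow_add₀ RatFunc.X_ne_zero]
    ring

/-- the bad primes of an element -/
theorem badx (x : RatFunc F) : {P : F[X] | P.Monic ∧ Irreducible P ∧ x ∉ IP P}.Finite := by
  classical
  refine Set.Finite.subset
    (UniqueFactorizationMonoid.normalizedFactors x.denom).toFinset.finite_toSet ?_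
  rintro P ⟨hm, hi, hx⟩
  have h1 : P ∣ x.denom := by
    by_contra h
    exact hx h
  rw [Finset.mem_coe, Multiset.mem_toFinset,
    UniqueFactorizationMonoid.mem_normalizedFactors_iff' (RatFunc.denom_ne_zero x)]
  exact ⟨hi, hm.normalize_eq_self, h1⟩

theorem badm (G : Matrix ι ι (RatFunc F)) (hG : G.det ≠ 0) :
    {P : F[X] | P.Monic ∧ Irreducible P ∧ ¬ GInI (IP P) G}.Finite := by
  refine Set.Finite.subset (((Set.finite_iUnion fun i => Set.finite_iUnion fun j =>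
    badx (G i j)).union (badx G.det)).union (badx G.det⁻¹)) ?_
  rintro P ⟨hm, hi, hx⟩
  by_contra h
  apply hx
  rw [Set.mem_union, Set.mem_union, not_or, not_or] at h
  obtain ⟨⟨h1, h2⟩, h3⟩ := h
  refine ⟨fun i j => ?_, hG, ?_, ?_⟩
  · by_contra h4
    exact h1 (Set.mem_iUnion.2 ⟨i, Set.mem_iUnion.2 ⟨j, hm, hi, h4⟩⟩)
  · by_contra h4
    exact h2 ⟨hm, hi, h4⟩
  · by_contra h4
    exact h3 ⟨hm, hi, h4⟩

/-- RCL -/
theorem rcl (hLag : LAGPStmt) : RCLStmt := by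
  intro F _ ι _ _ G T m δ hGt hG hT hL hout hinf
  classical
  choose! gT hgT using fun P (hP : P ∈ T) => locG (hL P hP).1
  choose! gN hgN0 hgN using fun P (hP : P.Monic ∧ Irreducible P ∧ P ∉ T) =>
    hout P hP.1 hP.2.1 hP.2.2
  obtain ⟨gi, hgi, hgi2⟩ := hinf
  obtain ⟨S, hS⟩ : ∃ S : Finset F[X], ∀ P, P ∈ S ↔ P.Monic ∧ Irreducible P ∧
      ¬ GInI (IP P) G := ⟨(badm G hG).toFinset, fun P => (badm G hG).mem_toFinset⟩
  obtain ⟨gQ, hgQ⟩ : ∃ gQ : F[X] → Matrix ι ι (RatFunc F), gQ = fun P =>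
    if P ∈ T then gT P else if P ∈ S then gN P else 1 := ⟨_, rfl⟩
  have q1 : ∀ P ∈ T, gQ P = gT P := fun P hP => by rw [hgQ]; exact if_pos hP
  have q2 : ∀ P ∉ T, P ∈ S → gQ P = gN P := fun P hP hP2 => by
    rw [hgQ]
    exact (if_neg hP).trans (if_pos hP2)
  have q3 : ∀ P ∉ T, P ∉ S → gQ P = 1 := fun P hP hP2 => by
    rw [hgQ]
    exact (if_neg hP).trans (if_neg hP2)
  obtain ⟨g, d, hg, hg2, κ, hκ, hgκ⟩ := gloI gQ (by
    intro P hm hi
    by_cases hPT : P ∈ T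
    · rw [q1 P hPT]
      obtain ⟨_, _, _, _, _, _, h, _⟩ := hgT P hPT
      exact h
    · by_cases hPS : P ∈ S
      · rw [q2 P hPT hPS]
        exact hgN0 P ⟨hm, hi, hPT⟩
      · rw [q3 P hPT hPS, det_one]
        exact one_ne_zero) (T ∪ S) (by
    intro P hP
    rcases Finset.mem_union.1 hP with h | h
    · exact hT P h
    · exact ⟨((hS P).1 h).1, ((hS P).1 h).2.1⟩) (by
    intro P hm hi hP
    rw [Finset.mem_union, not_or] at hP
    rw [q3 P hP.1 hP.2]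
    exact gone (OO hi)) gi hgi
  -- integrality
  have hout2 : ∀ P : F[X], P.Monic → Irreducible P → P ∉ T → GInI (IP P) (gᵀ * G * g) := by
    intro P hm hi hPT
    obtain ⟨c, hc, hgc⟩ := hg2 P hm hi
    have h1 : GInI (OO hi : Set (RatFunc F)) ((gQ P)ᵀ * G * gQ P) := by
      by_cases hPS : P ∈ S
      · rw [q2 P hPT hPS]
        exact hgN P ⟨hm, hi, hPT⟩
      · rw [q3 P hPT hPS, transpose_one, Matrix.one_mul, Matrix.mul_one]
        by_contra h
        exact hPS ((hS P).2 ⟨hm, hi, h⟩)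
    have h2 : gᵀ * G * g = cᵀ * ((gQ P)ᵀ * G * gQ P) * c := by
      rw [hgc, transpose_mul]
      simp only [Matrix.mul_assoc]
    rw [h2]
    exact gmul (OO hi) (gmul (OO hi) (gtr (OO hi) hc) h1) hc
  have hin : ∀ P : F[X], P.Monic → Irreducible P → MInI (IP P) (gᵀ * G * g) := by
    intro P hm hi
    by_cases hPT : P ∈ T
    · obtain ⟨c, hc, hgc⟩ := hg2 P hm hi
      rw [q1 P hPT] at hgc
      obtain ⟨_, _, _, _, _, _, _, _, h1, _⟩ := hgT P hPT
      have h2 : gᵀ * G * g = cᵀ * ((gT P)ᵀ * G * gT P) * c := by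
        rw [hgc, transpose_mul]
        simp only [Matrix.mul_assoc]
      rw [h2]
      exact mul' (OO hi) (mul' (OO hi) (gtr (OO hi) hc).1 h1) hc.1
    · exact (hout2 P hm hi hPT).1
  choose a ha using fun i j => pol_of_all ((gᵀ * G * g) i j) fun P hm hi => hin P hm hi i j
  obtain ⟨G', hG'⟩ : ∃ G' : Matrix ι ι F[X], gᵀ * G * g = mI G' :=
    ⟨Matrix.of a, by ext i j; exact ha i j⟩
  obtain ⟨hdeg, hdet, hnd⟩ := degsI G gi κ G' d hgi2 hκ (by rw [← hgκ]; exact hG')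
  have hG't : G'ᵀ = G' := by
    have h1 : (mI G')ᵀ = mI G' := by
      rw [← hG', transpose_mul, transpose_mul, transpose_transpose, hGt, Matrix.mul_assoc]
    refine Matrix.ext fun i j => ?_
    exact rf_inj (congrFun (congrFun h1 i) j)
  have hLU : ∀ P ∈ T, LocU P (mI G') (m P) (δ P) := by
    intro P hP
    obtain ⟨c, hc, hgc⟩ := hg2 P (hT P hP).1 (hT P hP).2
    rw [q1 P hP] at hgc
    rw [← hG']
    exact locU (hT P hP).2 (hgT P hP) hc hgc
  obtain ⟨κ', i1, i2, w, u, k1, k2, k3, k4, k5⟩ := ind G' hG't hdet m δ T hT hLU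
  obtain ⟨m', hm', hsq⟩ := hLag F ι G' d κ' u hG't hdet hdeg hnd (by
    intro x hx
    have hmu : IsUnit (mI G').det := by
      rw [mI_det]
      exact isUnit_iff_ne_zero.2 (RatFunc.algebraMap_ne_zero hdet)
    obtain ⟨y, hy⟩ : ∃ y, y = (mI G')⁻¹ *ᵥ fun i => rf (x i) := ⟨_, rfl⟩
    have hy2 : (mI G' *ᵥ y) = fun i => rf (x i) := by
      rw [hy, mulVec_mulVec, mul_nonsing_inv _ hmu, one_mulVec]
    choose z hz using fun i => pol_of_all (y i) (by
      intro P hm hi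
      by_cases hPT : P ∈ T
      · exact k4 x hx P hPT y hy2 i
      · have h1 : GInI (OO hi : Set (RatFunc F)) (mI G') := by
          rw [← hG']
          exact hout2 P hm hi hPT
        rw [hy]
        exact mv_mem (OO hi) (ginv (OO hi) h1).1 (fun i => pol_mem hi _) i)
    refine ⟨z, ?_⟩
    have h2 : y = fun i => rf (z i) := funext hz
    rw [h2, rf_mv] at hy2
    funext i
    exact (rf_inj (congrFun hy2 i)).symm) (by
    have h1 : ∏ P ∈ T, δ P ≠ 0 := Finset.prod_ne_zero_iff.2 fun P hP => (hL P hP).2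
    rw [k5] at h1
    exact right_ne_zero_of_mul h1)
  have hmm : m' = ∑ P ∈ T, m P := by omega
  rw [k5, ← hmm]
  exact hsq

end Pool.T1.Rcl
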