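import Pool.Agent.H36.HYP.HNF
import Pool.Agent.H52.HYP.BIRN

/-!
# T1, reciprocity: gluing of lattices over `F(t)`

Local lattices at finitely many primes and at infinity, one basis adapted to all of them; matrices
with entries regular at all primes are polynomial; degrees of the entries and of the determinant;
partial fractions.
-/

set_option autoImplicit false

namespace Pool.T1.Glo

open Polynomial Matrix Pool.AVR Pool.HYP Pool.AVS Pool.AVS.GLU

/-! ### Matrices over a subring -/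

section Sub

variable {L : Type} [Field L] {n : ℕ} (R : Subring L)

theorem sub_lift (A : Matrix (Fin n) (Fin n) L) (h : ∀ i j, A i j ∈ R) :
    ∃ A' : Matrix (Fin n) (Fin n) R, A = A'.map R.subtype :=
  ⟨Matrix.of fun i j => ⟨A i j, h i j⟩, by ext i j; rfl⟩

theorem sub_det {A : Matrix (Fin n) (Fin n) L} (h : ∀ i j, A i j ∈ R) : A.det ∈ R := by
  obtain ⟨A', rfl⟩ := sub_lift R A h
  have : (A'.map R.subtype).det = R.subtype A'.det := (RingHom.map_det R.subtype A').symm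
  rw [this]
  exact A'.det.2

theorem sub_adj {A : Matrix (Fin n) (Fin n) L} (h : ∀ i j, A i j ∈ R) (i j : Fin n) :
    A.adjugate i j ∈ R := by
  obtain ⟨A', rfl⟩ := sub_lift R A h
  have : (A'.map R.subtype).adjugate = A'.adjugate.map R.subtype :=
    (RingHom.map_adjugate R.subtype A').symm
  rw [this]
  exact (A'.adjugate i j).2

theorem sub_mul {A B : Matrix (Fin n) (Fin n) L} (hA : ∀ i j, A i j ∈ R)
    (hB : ∀ i j, B i j ∈ R) (i j : Fin n) : (A * B) i j ∈ R := by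
  rw [mul_apply]
  exact sum_mem fun k _ => mul_mem (hA i k) (hB k j)

theorem gin_mul {A B : Matrix (Fin n) (Fin n) L} (hA : GIn (R : Set L) A)
    (hB : GIn (R : Set L) B) : GIn (R : Set L) (A * B) := by
  refine ⟨sub_mul R hA.1 hB.1, ?_, ?_, ?_⟩
  · rw [det_mul]
    exact mul_ne_zero hA.2.1 hB.2.1
  · rw [det_mul]
    exact R.mul_mem hA.2.2.1 hB.2.2.1
  · rw [det_mul, mul_inv]
    exact R.mul_mem hA.2.2.2 hB.2.2.2

theorem gin_inv {A : Matrix (Fin n) (Fin n) L} (hA : GIn (R : Set L) A) :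
    GIn (R : Set L) A⁻¹ := by
  refine ⟨fun i j => ?_, ?_⟩
  · rw [Matrix.inv_def, Ring.inverse_eq_inv', Matrix.smul_apply, smul_eq_mul]
    exact R.mul_mem hA.2.2.2 (sub_adj R hA.1 i j)
  · rw [det_nonsing_inv, Ring.inverse_eq_inv']
    refine ⟨inv_ne_zero hA.2.1, hA.2.2.2, ?_⟩
    rw [inv_inv]
    exact hA.2.2.1

theorem gin_one : GIn (R : Set L) (1 : Matrix (Fin n) (Fin n) L) := by
  refine ⟨fun i j => ?_, ?_, ?_, ?_⟩
  · rw [Matrix.one_apply]
    split_ifs
    · exact R.one_mem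
    · exact R.zero_mem
  · rw [det_one]; exact one_ne_zero
  · rw [det_one]; exact R.one_mem
  · rw [det_one, inv_one]; exact R.one_mem

end Sub

variable {F : Type} [Field F] {n : ℕ}

theorem mK_det (γ : Matrix (Fin n) (Fin n) F[X]) :
    (mK γ).det = algebraMap F[X] (RatFunc F) γ.det := by
  rw [RingHom.map_det]
  rfl

theorem gin_unimod {γ : Matrix (Fin n) (Fin n) F[X]} (hγ : IsUnit γ.det) {P : F[X]}
    (hP : Irreducible P) : GIn (IP P) (mK γ) := by
  obtain ⟨u, hu⟩ := hγ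
  refine ⟨fun i j => pol_mem hP _, ?_⟩
  have e2 : algebraMap F[X] (RatFunc F) γ.det * algebraMap F[X] (RatFunc F) (↑u⁻¹) = 1 := by
    rw [← map_mul, ← hu, Units.mul_inv, map_one]
  have e3 : (algebraMap F[X] (RatFunc F) γ.det)⁻¹ = algebraMap F[X] (RatFunc F) (↑u⁻¹) :=
    inv_eq_of_mul_eq_one_right e2
  rw [mK_det]
  refine ⟨left_ne_zero_of_mul_eq_one e2, pol_mem hP _, ?_⟩
  rw [e3]
  exact pol_mem hP _

/-- gluing -/
theorem glo (gQ : F[X] → Matrix (Fin n) (Fin n) (RatFunc F))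
    (h0 : ∀ P : F[X], P.Monic → Irreducible P → (gQ P).det ≠ 0)
    (S : Finset F[X]) (hS : ∀ P ∈ S, P.Monic ∧ Irreducible P)
    (hout : ∀ P : F[X], P.Monic → Irreducible P → P ∉ S → GIn (IP P) (gQ P))
    (gi : Matrix (Fin n) (Fin n) (RatFunc F)) (hgi : gi.det ≠ 0) :
    ∃ (g : Matrix (Fin n) (Fin n) (RatFunc F)) (d : Fin n → ℤ), g.det ≠ 0 ∧
      (∀ P : F[X], P.Monic → Irreducible P → ∃ κ, GIn (IP P) κ ∧ g = gQ P * κ) ∧
      ∃ κ, GIn (Iinf F) κ ∧
        g = gi * κ * Matrix.diagonal (fun i => (RatFunc.X : RatFunc F) ^ d i) := by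
  obtain ⟨g, hg, hg1, hg2⟩ := glun F n S hS gQ fun P hP => h0 P (hS P hP).1 (hS P hP).2
  obtain ⟨γ, d, κ, _, hγ, hκ, hbir⟩ := birn F n (gi⁻¹ * g) (by
    rw [det_mul, det_nonsing_inv, Ring.inverse_eq_inv']
    exact mul_ne_zero (inv_ne_zero hgi) hg)
  have hγ0 : (mK γ).det ≠ 0 := by
    rw [mK_det]
    exact (hγ.map _).ne_zero
  refine ⟨g * mK γ, d, ?_, ?_, κ, hκ, ?_⟩
  · rw [det_mul]
    exact mul_ne_zero hg hγ0
  · intro P hPm hP
    by_cases hPS : P ∈ S
    · obtain ⟨κ', h1, h2⟩ := hg1 P hPS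
      refine ⟨κ' * mK γ, HNF.GIn.mul hP h1 (gin_unimod hγ hP), ?_⟩
      rw [h2, Matrix.mul_assoc]
    · have h1 := hg2 P hPm hP hPS
      have h2 : GIn (OO hP : Set (RatFunc F)) (gQ P) := hout P hPm hP hPS
      refine ⟨(gQ P)⁻¹ * (g * mK γ), ?_, ?_⟩
      · exact HNF.GIn.mul hP (gin_inv (OO hP) h2) (HNF.GIn.mul hP h1 (gin_unimod hγ hP))
      · rw [Matrix.mul_nonsing_inv_cancel_left _ _ (isUnit_iff_ne_zero.2 (h0 P hPm hP))]
  · rw [Matrix.mul_assoc, ← hbir, ← Matrix.mul_assoc, ← Matrix.mul_assoc,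
      Matrix.mul_nonsing_inv _ (isUnit_iff_ne_zero.2 hgi), Matrix.one_mul]

/-- an element regular at all primes is a polynomial -/
theorem pol_of_all (x : RatFunc F) (h : ∀ P : F[X], P.Monic → Irreducible P → x ∈ IP P) :
    ∃ a : F[X], x = algebraMap F[X] (RatFunc F) a := by
  have hu : IsUnit x.denom := by
    by_contra hn
    obtain ⟨P, hPm, hP, hd⟩ := Polynomial.exists_monic_irreducible_factor x.denom hn
    exact h P hPm hP hd
  have h1 : x.denom = 1 := (RatFunc.monic_denom x).eq_one_of_isUnit hu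
  refine ⟨x.num, ?_⟩
  conv_lhs => rw [← RatFunc.num_div_denom x, h1, map_one, div_one]

theorem mat_of_all (M : Matrix (Fin n) (Fin n) (RatFunc F))
    (h : ∀ P : F[X], P.Monic → Irreducible P → MIn (IP P) M) :
    ∃ G : Matrix (Fin n) (Fin n) F[X], M = mK G := by
  choose a ha using fun i j => pol_of_all (M i j) fun P hm hi => h P hm hi i j
  exact ⟨Matrix.of a, by ext i j; exact ha i j⟩

/-- partial fractions -/
theorem pf {P : F[X]} (hP : Irreducible P) (x : RatFunc F) :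
    ∃ (a : F[X]) (j : ℕ), x - algebraMap F[X] (RatFunc F) a /
      (algebraMap F[X] (RatFunc F) P) ^ j ∈ IP P := by
  obtain ⟨x', ⟨a, j, h1⟩, h2⟩ := approx hP x 0
  refine ⟨a, j, ?_⟩
  rw [pow_zero, div_one] at h2
  have h3 := (OO hP).neg_mem h2
  rw [neg_sub, h1] at h3
  exact h3

/-- regular at the other primes -/
theorem pf_mem {P Q : F[X]} (hPm : P.Monic) (hP : Irreducible P) (hQm : Q.Monic)
    (hQ : Irreducible Q) (hne : Q ≠ P) (a : F[X]) (j : ℕ) :
    algebraMap F[X] (RatFunc F) a / (algebraMap F[X] (RatFunc F) P) ^ j ∈ IP Q :=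
  RR.mem hQ (HNF.ndvd hPm hP hQm hQ hne) ⟨a, j, rfl⟩

/-! ### Degrees -/

theorem mem_Iinf {x : RatFunc F} : x ∈ Iinf F ↔ x.intDegree ≤ 0 := Iff.rfl

theorem deg_of_mem (a : F[X]) (m : ℤ) (u : RatFunc F) (hu : u ∈ Iinf F)
    (h : algebraMap F[X] (RatFunc F) a = (RatFunc.X : RatFunc F) ^ m * u) : DegLe a m := by
  intro ha
  have ha' : algebraMap F[X] (RatFunc F) a ≠ 0 := RatFunc.algebraMap_ne_zero ha
  have hu0 : u ≠ 0 := by
    rintro rfl
    rw [mul_zero] at h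
    exact ha' h
  have h1 : (algebraMap F[X] (RatFunc F) a).intDegree = m + u.intDegree := by
    rw [h, RatFunc.intDegree_mul (zpow_ne_zero _ RatFunc.X_ne_zero) hu0, BIRN2.intDegree_X_zpow]
  rw [RatFunc.intDegree_polynomial] at h1
  have h2 := mem_Iinf.1 hu
  omega

theorem deg_of_unit (a : F[X]) (m : ℤ) (u : RatFunc F) (hu : UI (Iinf F) u)
    (h : algebraMap F[X] (RatFunc F) a = (RatFunc.X : RatFunc F) ^ m * u) :
    a ≠ 0 ∧ (a.natDegree : ℤ) = m := by
  obtain ⟨hu0, hu1, hu2⟩ := hu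
  have h1 : (algebraMap F[X] (RatFunc F) a).intDegree = m + u.intDegree := by
    rw [h, RatFunc.intDegree_mul (zpow_ne_zero _ RatFunc.X_ne_zero) hu0, BIRN2.intDegree_X_zpow]
  rw [RatFunc.intDegree_polynomial] at h1
  have h2 := mem_Iinf.1 hu1
  have h3 := mem_Iinf.1 hu2
  rw [RatFunc.intDegree_inv] at h3
  refine ⟨?_, by omega⟩
  rintro rfl
  rw [map_zero] at h
  exact mul_ne_zero (zpow_ne_zero _ RatFunc.X_ne_zero) hu0 h.symm

/-- degrees of the Gram matrix -/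
theorem degs (G0 gi κ : Matrix (Fin n) (Fin n) (RatFunc F)) (G : Matrix (Fin n) (Fin n) F[X])
    (d : Fin n → ℤ) (hi : GIn (Iinf F) (giᵀ * G0 * gi)) (hκ : GIn (Iinf F) κ)
    (hG : (gi * κ * Matrix.diagonal (fun i => (RatFunc.X : RatFunc F) ^ d i))ᵀ * G0 *
      (gi * κ * Matrix.diagonal (fun i => (RatFunc.X : RatFunc F) ^ d i)) = mK G) :
    (∀ i j, DegLe (G i j) (d i + d j)) ∧ G.det ≠ 0 ∧ (G.det.natDegree : ℤ) = 2 * ∑ i, d i := by
  have hκt : GIn (OInf F : Set (RatFunc F)) κᵀ :=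
    ⟨fun i j => hκ.1 j i, by rw [det_transpose]; exact hκ.2⟩
  have hU : GIn ((OInf F) : Set (RatFunc F)) (κᵀ * (giᵀ * G0 * gi) * κ) :=
    gin_mul (OInf F) (gin_mul (OInf F) hκt hi) hκ
  set U := κᵀ * (giᵀ * G0 * gi) * κ with hUdef
  set D := Matrix.diagonal (fun i => (RatFunc.X : RatFunc F) ^ d i) with hD
  have e : D * U * D = mK G := by
    have hDt : Dᵀ = D := by rw [hD, Matrix.diagonal_transpose]
    rw [← hG, hUdef, Matrix.transpose_mul, Matrix.transpose_mul, hDt]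
    simp only [Matrix.mul_assoc]
  refine ⟨fun i j => ?_, ?_⟩
  · refine deg_of_mem (G i j) (d i + d j) (U i j) (hU.1 i j) ?_
    have h1 : (mK G) i j = algebraMap F[X] (RatFunc F) (G i j) := rfl
    rw [← h1, ← e, hD, Matrix.mul_diagonal, Matrix.diagonal_mul,
      zpow_add₀ RatFunc.X_ne_zero]
    ring
  · refine deg_of_unit G.det (2 * ∑ i, d i) U.det hU.2 ?_
    rw [← mK_det, ← e, det_mul, det_mul, hD, det_diagonal, BIRN2.prod_zpow', two_mul,
      zpow_add₀ RatFunc.X_ne_zero]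
    ring

end Pool.T1.Glo
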